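import Pool.Agent.U575.JO.Jx

set_option autoImplicit false

/-! Joint moments of the critical order. -/

namespace Pool.Agent.U575.JO

open Finset Filter MeasureTheory Topology Complex Pool.Agent.N748.MG Pool.Agent.N748.MJ Pool.Agent.U575.RO

noncomputable section

lemma cint (κ δ : ℝ) (N : Set ℝ) : ∫ t in N, ((‖riemannZeta (pw δ t)‖ : ℝ) : ℂ) ^ (2 * (κ : ℂ)) =
    ((∫ t in N, mz δ t ^ (2 * κ) : ℝ) : ℂ) := by
  rw [← integral_complex_ofReal]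
  congr 1
  funext t
  have : (2 * (κ : ℂ)) = ((2 * κ : ℝ) : ℂ) := by push_cast; rfl
  rw [this]
  exact (Complex.ofReal_cpow (norm_nonneg _) _).symm

lemma cm_real {δ κ X ε : ℝ} {N : Set ℝ} (hδ : 0 < δ)
    (h : ‖((2 * δ : ℝ) : ℂ) ^ ((κ : ℂ) ^ 2) * (∫ t in N, ((‖riemannZeta (pw δ t)‖ : ℝ) : ℂ) ^ (2 * (κ : ℂ))) -
      X * aC κ‖ ≤ ε * X) : |(2 * δ) ^ (κ ^ 2) * (∫ t in N, mz δ t ^ (2 * κ)) - X * (aC κ).re| ≤ ε * X := by
  have e1 : ((κ : ℂ) ^ 2) = ((κ ^ 2 : ℝ) : ℂ) := by push_cast; rfl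
  rw [cint, e1, ← Complex.ofReal_cpow (by positivity)] at h
  have h2 := (Complex.abs_re_le_norm _).trans h
  rw [Complex.sub_re, Complex.re_ofReal_mul, Complex.re_ofReal_mul, Complex.ofReal_re] at h2
  exact h2

/-- **The asymptotic formula of one order gives the joint moments of that order.** -/
theorem jc (hJ : S_JMF) (hC : S_CM) {d : ℝ → ℝ} (hd : Ad d) {κ : ℝ} (hκ : 0 < κ)
    (hU : ∀ ε : ℝ, 0 < ε → ∀ᶠ T : ℝ in atTop,
      (2 * d T) ^ (κ ^ 2) * (1 / T * MR κ (d T) (2 * T)) ≤ 2 * (aC κ).re + ε) (m : ℕ) (R : ℝ) {ε : ℝ} (hε : 0 < ε) :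
    ∀ᶠ T : ℝ in atTop, ∀ h : Fin m → ℝ, (∀ j, |h j| ≤ T ^ ((1:ℝ) / 2)) → ∀ (b : Fin m → ℂ) (n : Fin m → ℤ),
      (∀ j, ‖b j‖ ≤ R) → (∀ j, |((n j : ℤ) : ℝ)| ≤ R) → (∀ j, 0 ≤ (b j).re) → ∑ j, (b j).re ≤ κ →
      ‖JJ b n h (d T) T - T * DD b n h (d T)‖ ≤ ε * (T * (2 * d T) ^ (-(κ ^ 2))) := by
  obtain ⟨Q, hQ⟩ : ∃ Q, Q = max R 1 := ⟨_, rfl⟩
  have hQ1 : 1 ≤ Q := by rw [hQ]; exact le_max_right _ _
  have hQR : R ≤ Q := by rw [hQ]; exact le_max_left _ _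
  obtain ⟨A2, hA2⟩ : ∃ A2, A2 = ‖aC ((2 * κ : ℝ) : ℂ)‖ := ⟨_, rfl⟩
  have hA20 : 0 ≤ A2 := by rw [hA2]; exact norm_nonneg _
  obtain ⟨ε1, hε1⟩ : ∃ ε1, ε1 = min (ε / (12 * (m + 1))) 1 := ⟨_, rfl⟩
  have hε10 : 0 < ε1 := by rw [hε1]; exact lt_min (by positivity) one_pos
  have hε11 : ε1 ≤ 1 := by rw [hε1]; exact min_le_right _ _
  have hε12 : 6 * m * ε1 ≤ ε / 2 := by
    have h1 : ε1 ≤ ε / (12 * (m + 1)) := by rw [hε1]; exact min_le_left _ _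
    calc 6 * m * ε1 ≤ 6 * (m + 1) * (ε / (12 * (m + 1))) := by gcongr; linarith
      _ = ε / 2 := by field_simp; norm_num
  obtain ⟨B, hB⟩ : ∃ B, B = 4 * κ ^ 2 + 1 := ⟨_, rfl⟩
  obtain ⟨D2, hD2⟩ : ∃ D2, D2 = B + 1 := ⟨_, rfl⟩
  have hB0 : 0 < B := by rw [hB]; positivity
  have hD20 : 0 < D2 := by rw [hD2]; positivity
  have g1 := (hJ m Q D2 (by linarith) hD20).app hd
  have g1' := (hC (2 * κ + 1) 1 (by linarith) one_pos ε1 hε10).up.app hd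
  have g2 := (Ev.small (C := 2 + m * (5 + 4 * A2)) (c := 1) (e := ε / 2) one_pos (by positivity)).app hd
  have g4 := (Ev.of_le (d := 1 / 16) (by norm_num)).app hd
  filter_upwards [g1, g1', g2, g4, hd.pos, hU ε1 hε10, eventually_ge_atTop 1] with
    T g1 g1' g2 g4 g5 hM hT1 h hh b n hb hn hbr hbs
  have hT : 0 < T := by linarith
  obtain ⟨N, n1, n2, n3, n4, n5⟩ := g1 h hh
  obtain ⟨N1, m1, m2, -, -, m5⟩ := g1' (2 * T) (by linarith)
  set δ := d T with hδ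
  rw [Real.rpow_one] at g2
  have hδ1 : δ ≤ 1 := by linarith
  have h2δ : 0 < 2 * δ := by linarith
  have hhT : ∀ j, |h j| ≤ T := fun j => (hh j).trans (by
    calc T ^ ((1:ℝ) / 2) ≤ T ^ (1:ℝ) := Real.rpow_le_rpow_of_exponent_le hT1 (by norm_num)
      _ = T := Real.rpow_one T)
  -- the good set
  obtain ⟨w, hw⟩ : ∃ w, w = (2 * δ) ^ (κ ^ 2) := ⟨_, rfl⟩
  have hw0 : 0 < w := by rw [hw]; positivity
  have hwi : (2 * δ) ^ (-(κ ^ 2)) = w⁻¹ := by rw [hw, Real.rpow_neg h2δ.le]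
  have hw1 : w ≤ 1 := by rw [hw]; exact Real.rpow_le_one h2δ.le (by linarith) (sq_nonneg _)
  have hM0 : T ≤ T * w⁻¹ := le_mul_of_one_le_right hT.le ((one_le_inv₀ hw0).2 hw1)
  have k1 : 2 * T * (aC κ).re - 2 * ε1 * T ≤ w * ∫ t in N1, mz δ t ^ (2 * κ) := by
    have h1 := cm_real g5 (m5 (κ : ℂ) (by
      rw [Complex.norm_real, Real.norm_of_nonneg hκ.le]; linarith))
    have := (abs_le.1 h1).1
    rw [← hw] at this
    linarith
  have k2 : ∫ t in N1, mz δ t ^ (2 * (2 * κ)) ≤ δ ^ (-(4 * κ ^ 2)) * (2 * T * (A2 + 1)) := by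
    have h1 := cm_real (κ := 2 * κ) g5 (m5 ((2 * κ : ℝ) : ℂ) (by
      rw [Complex.norm_real, Real.norm_of_nonneg (by linarith)]; linarith))
    have h2 := (abs_le.1 h1).2
    have h3 : (aC ((2 * κ : ℝ) : ℂ)).re ≤ A2 := by
      rw [hA2]; exact (le_abs_self _).trans (Complex.abs_re_le_norm _)
    have h4 : (2 * δ) ^ ((2 * κ) ^ 2) * ∫ t in N1, mz δ t ^ (2 * (2 * κ)) ≤ 2 * T * (A2 + 1) := by
      have h5 : 2 * T * (aC ((2 * κ : ℝ) : ℂ)).re ≤ 2 * T * A2 := by gcongr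
      have h6 : ε1 * (2 * T) ≤ 1 * (2 * T) := by gcongr
      linarith
    have h5 : δ ^ (4 * κ ^ 2) ≤ (2 * δ) ^ ((2 * κ) ^ 2) := by
      have e : (2 * κ) ^ 2 = 4 * κ ^ 2 := by ring
      rw [e]
      exact Real.rpow_le_rpow g5.le (by linarith) (by positivity)
    have h6 : 0 ≤ ∫ t in N1, mz δ t ^ (2 * (2 * κ)) :=
      integral_nonneg fun t => Real.rpow_nonneg (norm_nonneg _) _
    rw [Real.rpow_neg g5.le, ← div_eq_inv_mul, le_div_iff₀ (by positivity)]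
    calc (∫ t in N1, mz δ t ^ (2 * (2 * κ))) * δ ^ (4 * κ ^ 2) ≤
          (∫ t in N1, mz δ t ^ (2 * (2 * κ))) * (2 * δ) ^ ((2 * κ) ^ 2) := by gcongr
      _ ≤ _ := by rw [mul_comm]; exact h4
  have k3 : w * MR κ δ (2 * T) ≤ T * (2 * (aC κ).re + ε1) := by
    rw [← hw] at hM
    have e : w * MR κ δ (2 * T) = T * (w * (1 / T * MR κ δ (2 * T))) := by field_simp
    rw [e]
    gcongr
  have k4 : MR κ δ (2 * T) - (∫ t in N1, mz δ t ^ (2 * κ)) ≤ 3 * ε1 * (T * w⁻¹) := by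
    have h1 : w * (MR κ δ (2 * T) - ∫ t in N1, mz δ t ^ (2 * κ)) ≤ 3 * ε1 * T := by
      rw [mul_sub]; linarith
    calc MR κ δ (2 * T) - (∫ t in N1, mz δ t ^ (2 * κ)) =
          w⁻¹ * (w * (MR κ δ (2 * T) - ∫ t in N1, mz δ t ^ (2 * κ))) := by field_simp
      _ ≤ w⁻¹ * (3 * ε1 * T) := by gcongr
      _ = _ := by ring
  -- the exceptional set
  set E : Set ℝ := Set.Icc 0 T \ N with hE
  have hEm : MeasurableSet E := measurableSet_Icc.diff n1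
  have hET : E ⊆ Set.Icc 0 T := Set.sdiff_subset
  have hvE : (volume : Measure ℝ).real E ≤ δ ^ D2 * T := by
    rw [Measure.real]
    exact ENNReal.toReal_le_of_le_ofReal (by positivity) n3
  have hEfin : volume E < ⊤ := n3.trans_lt ENNReal.ofReal_lt_top
  have hD2T : δ ^ D2 * T ≤ δ * (T * w⁻¹) := by
    calc δ ^ D2 * T ≤ δ ^ (1:ℝ) * T := by
          gcongr ?_ * T
          exact Real.rpow_le_rpow_of_exponent_ge g5 hδ1 (by rw [hD2]; linarith)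
      _ = δ * T := by rw [Real.rpow_one]
      _ ≤ _ := by gcongr
  have k5 : ∀ j, ∫ t in E, mz δ (t + h j) ^ (2 * κ) ≤ ((5 + 4 * A2) * δ + 6 * ε1) * (T * w⁻¹) := by
    intro j
    have h1 := small_set (h := h j) g4 hκ.le hT.le (hhT j) (P := δ ^ (-B)) (v := δ ^ D2 * T) (by positivity)
      (by positivity) hEm hET n3 m1 m2
    have h2 : δ ^ (-B) * (δ ^ D2 * T) ≤ δ * (T * w⁻¹) := by
      rw [← mul_assoc, ← Real.rpow_add g5]
      have : -B + D2 = 1 := by rw [hD2]; ring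
      rw [this, Real.rpow_one]
      gcongr
    have h3 : (δ ^ (-B))⁻¹ * (2 * ∫ t in N1, mz δ t ^ (2 * (2 * κ))) ≤ (4 * (A2 + 1) * δ) * (T * w⁻¹) := by
      rw [Real.rpow_neg g5.le, inv_inv]
      calc δ ^ B * (2 * ∫ t in N1, mz δ t ^ (2 * (2 * κ))) ≤
            δ ^ B * (2 * (δ ^ (-(4 * κ ^ 2)) * (2 * T * (A2 + 1)))) := by gcongr
        _ = (4 * (A2 + 1) * (δ ^ B * δ ^ (-(4 * κ ^ 2)))) * T := by ring
        _ = (4 * (A2 + 1) * δ) * T := by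
            rw [← Real.rpow_add g5]
            have : B + -(4 * κ ^ 2) = 1 := by rw [hB]; ring
            rw [this, Real.rpow_one]
        _ ≤ _ := by gcongr
    have h5 : ((5 + 4 * A2) * δ + 6 * ε1) * (T * w⁻¹) =
        δ * (T * w⁻¹) + (4 * (A2 + 1) * δ) * (T * w⁻¹) + 2 * (3 * ε1 * (T * w⁻¹)) := by ring
    rw [h5]
    linarith
  have hf := FF_int n h g4 hbr T
  have e0 : JJ b n h δ T = (∫ t in N, FF b n h δ t) + ∫ t in E, FF b n h δ t := by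
    unfold JJ
    rw [intervalIntegral.integral_of_le hT.le, ← integral_Icc_eq_integral_Ioc,
      ← integral_inter_add_sdiff n1 hf, Set.inter_eq_self_of_subset_right n2]
  have e1 : ‖∫ t in E, FF b n h δ t‖ ≤ (δ + m * ((5 + 4 * A2) * δ + 6 * ε1)) * (T * w⁻¹) := by
    have i0 : Integrable (fun _ : ℝ => (1:ℝ)) (volume.restrict E) := integrableOn_const hEfin.ne
    have i1 : ∀ j, IntegrableOn (fun t => mz δ (t + h j) ^ (2 * κ)) E := fun j =>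
      (mzs_cont g4 hκ.le (h j)).continuousOn.integrableOn_Icc.mono_set hET
    have i2 : Integrable (fun t : ℝ => ∑ j, mz δ (t + h j) ^ (2 * κ)) (volume.restrict E) :=
      integrable_finsetSum _ fun j _ => i1 j
    have b1 : ‖∫ t in E, FF b n h δ t‖ ≤ ∫ t in E, ((1:ℝ) + ∑ j, mz δ (t + h j) ^ (2 * κ)) :=
      norm_integral_le_of_norm_le (i0.add i2) (Eventually.of_forall fun t => FF_le n h δ t hbr hbs)
    rw [integral_add i0 i2, setIntegral_const, smul_eq_mul, mul_one, integral_finsetSum _ fun j _ => i1 j] at b1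
    have b2 : ∑ j, ∫ t in E, mz δ (t + h j) ^ (2 * κ) ≤ ∑ _j : Fin m, ((5 + 4 * A2) * δ + 6 * ε1) * (T * w⁻¹) :=
      Finset.sum_le_sum fun j _ => k5 j
    rw [Finset.sum_const, Finset.card_univ, Fintype.card_fin, nsmul_eq_mul] at b2
    have : (δ + m * ((5 + 4 * A2) * δ + 6 * ε1)) * (T * w⁻¹) =
        δ * (T * w⁻¹) + m * (((5 + 4 * A2) * δ + 6 * ε1) * (T * w⁻¹)) := by ring
    rw [this]
    linarith
  have e3 : ‖(∫ t in N, FF b n h δ t) - T * DD b n h δ‖ ≤ δ ^ D2 * T :=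
    n5 b n (fun j => (hb j).trans hQR) (fun j => (hn j).trans hQR)
  have e5 : JJ b n h δ T - T * DD b n h δ =
      ((∫ t in N, FF b n h δ t) - T * DD b n h δ) + ∫ t in E, FF b n h δ t := by
    rw [e0]; ring
  rw [e5, hwi]
  calc _ ≤ _ := norm_add_le _ _
    _ ≤ δ * (T * w⁻¹) + (δ + m * ((5 + 4 * A2) * δ + 6 * ε1)) * (T * w⁻¹) := add_le_add (e3.trans hD2T) e1
    _ = ((2 + m * (5 + 4 * A2)) * δ + 6 * m * ε1) * (T * w⁻¹) := by ring
    _ ≤ ε * (T * w⁻¹) := by gcongr; linarith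

end

end Pool.Agent.U575.JO
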