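import Pool.Agent.N438.MJ.Tr
import Pool.Agent.U575.RO.Cx

set_option autoImplicit false

/-! Joint moments of shifts near the critical line, without exceptional sets. -/

namespace Pool.Agent.U575.JO

open Finset Filter MeasureTheory Topology Complex Pool.Agent.N748.MG Pool.Agent.N748.MJ Pool.Agent.U575.RO

noncomputable section

/-- the diagonal series -/
def DD {m : ℕ} (b : Fin m → ℂ) (n : Fin m → ℤ) (h : Fin m → ℝ) (δ : ℝ) : ℂ :=
  ∑' q : ℕ, dV (sp b n) h q * (starRingEnd ℂ) (dV (cj (sm b n)) h q) * (((q:ℝ) ^ (-(1 + 2 * δ)) : ℝ) : ℂ)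

/-- the integrand -/
def FF {m : ℕ} (b : Fin m → ℂ) (n : Fin m → ℤ) (h : Fin m → ℝ) (δ t : ℝ) : ℂ :=
  ∏ j, ZZ (riemannZeta (pw δ (t + h j))) (b j) (n j)

/-- the joint moment -/
def JJ {m : ℕ} (b : Fin m → ℂ) (n : Fin m → ℤ) (h : Fin m → ℝ) (δ T : ℝ) : ℂ :=
  ∫ t in (0:ℝ)..T, FF b n h δ t

lemma ZZ_le (z b : ℂ) (n : ℤ) (hb : 0 ≤ b.re) : ‖ZZ z b n‖ ≤ ‖z‖ ^ (2 * b.re) := by
  unfold ZZ
  rw [norm_mul]
  have h1 := norm_cpow_le' (norm_nonneg z) b hb
  have h2 : ‖(z / ((‖z‖ : ℝ) : ℂ)) ^ n‖ ≤ 1 := by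
    rcases eq_or_ne z 0 with hz | hz
    · rcases eq_or_ne n 0 with hn | hn
      · rw [hn, zpow_zero, norm_one]
      · rw [hz]
        simp [zero_zpow _ hn]
    · rw [norm_zpow, norm_div, Complex.norm_real, norm_norm, div_self (norm_ne_zero_iff.2 hz), one_zpow]
  calc _ ≤ ‖z‖ ^ (2 * b.re) * 1 := by gcongr
    _ = _ := mul_one _

lemma prod_le {m : ℕ} {y β : Fin m → ℝ} (hy : ∀ j, 0 ≤ y j) (hβ : ∀ j, 0 ≤ β j) {q : ℝ} (hq : ∑ j, β j ≤ q) :
    ∏ j, y j ^ (2 * β j) ≤ 1 + ∑ j, y j ^ (2 * q) := by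
  by_cases hc : ∀ j, y j ≤ 1
  · have h1 : ∏ j, y j ^ (2 * β j) ≤ 1 :=
      Finset.prod_le_one (fun j _ => Real.rpow_nonneg (hy j) _) fun j _ =>
        Real.rpow_le_one (hy j) (hc j) (by have := hβ j; linarith)
    have h2 : 0 ≤ ∑ j, y j ^ (2 * q) := Finset.sum_nonneg fun j _ => Real.rpow_nonneg (hy j) _
    linarith
  · push Not at hc
    obtain ⟨i, hi⟩ := hc
    obtain ⟨l, -, hl⟩ := Finset.exists_max_image Finset.univ y ⟨i, Finset.mem_univ i⟩
    have h1 : 1 ≤ y l := hi.le.trans (hl i (Finset.mem_univ i))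
    have h0 : 0 < y l := by linarith
    calc ∏ j, y j ^ (2 * β j) ≤ ∏ j, y l ^ (2 * β j) :=
          Finset.prod_le_prod (fun j _ => Real.rpow_nonneg (hy j) _) fun j _ =>
            Real.rpow_le_rpow (hy j) (hl j (Finset.mem_univ j)) (by have := hβ j; linarith)
      _ = y l ^ (2 * ∑ j, β j) := by rw [← Real.rpow_sum_of_pos h0, Finset.mul_sum]
      _ ≤ y l ^ (2 * q) := Real.rpow_le_rpow_of_exponent_le h1 (by linarith)
      _ ≤ ∑ j, y j ^ (2 * q) := Finset.single_le_sum (f := fun j => y j ^ (2 * q))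
          (fun j _ => Real.rpow_nonneg (hy j) _) (Finset.mem_univ l)
      _ ≤ _ := by linarith

lemma FF_le {m : ℕ} {b : Fin m → ℂ} (n : Fin m → ℤ) (h : Fin m → ℝ) (δ t : ℝ) (hb : ∀ j, 0 ≤ (b j).re) {q : ℝ}
    (hq : ∑ j, (b j).re ≤ q) : ‖FF b n h δ t‖ ≤ 1 + ∑ j, mz δ (t + h j) ^ (2 * q) := by
  unfold FF
  rw [norm_prod]
  calc ∏ j, ‖ZZ (riemannZeta (pw δ (t + h j))) (b j) (n j)‖ ≤ ∏ j, mz δ (t + h j) ^ (2 * (b j).re) :=
        Finset.prod_le_prod (fun j _ => norm_nonneg _) fun j _ => ZZ_le _ _ _ (hb j)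
    _ ≤ _ := prod_le (fun j => norm_nonneg _) hb hq

lemma mz_even (δ t : ℝ) : mz δ (-t) = mz δ t := by
  unfold mz
  rw [← RCLike.norm_conj (riemannZeta (pw δ t)), ← riemannZeta_conj]
  congr 2
  unfold pw
  simp [Complex.ext_iff]

lemma ev_shift {g : ℝ → ℝ} (hg : ∀ u, g (-u) = g u) (h0 : ∀ u, 0 ≤ g u)
    (hi : ∀ a b : ℝ, IntervalIntegrable g volume a b) {T h : ℝ} (hT : 0 ≤ T) (hh : |h| ≤ T) :
    ∫ t in (0:ℝ)..T, g (t + h) ≤ 2 * ∫ t in (0:ℝ)..(2 * T), g t := by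
  obtain ⟨h1, h2⟩ := abs_le.1 hh
  rw [intervalIntegral.integral_comp_add_right g h, zero_add]
  have e1 : ∫ t in h..(T + h), g t ≤ ∫ t in (-(2 * T))..(2 * T), g t :=
    intervalIntegral.integral_mono_interval (by linarith) (by linarith) (by linarith) (Eventually.of_forall h0)
      (hi _ _)
  have e2 := intervalIntegral.integral_add_adjacent_intervals (hi (-(2 * T)) 0) (hi 0 (2 * T))
  have e3 : ∫ t in (-(2 * T))..0, g t = ∫ t in (0:ℝ)..(2 * T), g t := by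
    have := intervalIntegral.integral_comp_neg (a := -(2 * T)) (b := 0) g
    simp only [hg, neg_neg, neg_zero] at this
    exact this
  linarith

lemma mzp_cont {δ : ℝ} (h0 : δ ≤ 1 / 16) {κ : ℝ} (hκ : 0 ≤ κ) : Continuous fun t : ℝ => mz δ t ^ (2 * κ) :=
  (TMA.cont h0).rpow_const fun t => Or.inr (by linarith)

lemma MR_Icc {κ δ T : ℝ} (hT : 0 ≤ T) : MR κ δ T = ∫ t in Set.Icc 0 T, mz δ t ^ (2 * κ) := by
  unfold MR
  rw [intervalIntegral.integral_of_le hT, integral_Icc_eq_integral_Ioc]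

/-- the integral over the shift -/
lemma mz_shift {δ κ T h : ℝ} (h0 : δ ≤ 1 / 16) (hκ : 0 ≤ κ) (hT : 0 ≤ T) (hh : |h| ≤ T) :
    ∫ t in (0:ℝ)..T, mz δ (t + h) ^ (2 * κ) ≤ 2 * MR κ δ (2 * T) :=
  ev_shift (g := fun t => mz δ t ^ (2 * κ)) (fun u => by simp only [mz_even])
    (fun u => Real.rpow_nonneg (norm_nonneg _) _) (fun a b => (mzp_cont h0 hκ).intervalIntegrable _ _) hT hh

lemma mzs_cont {δ : ℝ} (h0 : δ ≤ 1 / 16) {κ : ℝ} (hκ : 0 ≤ κ) (h : ℝ) :
    Continuous fun t : ℝ => mz δ (t + h) ^ (2 * κ) :=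
  (mzp_cont h0 hκ).comp (continuous_id.add continuous_const)

/-- small sets: with a good set `N1` -/
lemma small_set {δ κ T h P v : ℝ} (h0 : δ ≤ 1 / 16) (hκ : 0 ≤ κ) (hT : 0 ≤ T) (hh : |h| ≤ T) (hP : 0 < P)
    (hv : 0 ≤ v) {E N1 : Set ℝ} (hE : MeasurableSet E) (hET : E ⊆ Set.Icc 0 T)
    (hvE : volume E ≤ ENNReal.ofReal v) (hN : MeasurableSet N1) (hNT : N1 ⊆ Set.Icc 0 (2 * T)) :
    ∫ t in E, mz δ (t + h) ^ (2 * κ) ≤ P * v + P⁻¹ * (2 * ∫ t in N1, mz δ t ^ (2 * (2 * κ))) +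
      2 * (MR κ δ (2 * T) - ∫ t in N1, mz δ t ^ (2 * κ)) := by
  have hN' : MeasurableSet {u : ℝ | |u| ∈ N1} := hN.preimage continuous_abs.measurable
  set g1 : ℝ → ℝ := Set.indicator {u : ℝ | |u| ∈ N1} (fun u => mz δ u ^ (2 * (2 * κ))) with hg1
  set g2 : ℝ → ℝ := Set.indicator {u : ℝ | |u| ∈ N1}ᶜ (fun u => mz δ u ^ (2 * κ)) with hg2
  have c1 := mzp_cont h0 (κ := 2 * κ) (by linarith)
  have c2 := mzp_cont h0 hκ
  have i1 : ∀ a b : ℝ, IntervalIntegrable g1 volume a b := fun a b => by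
    rw [intervalIntegrable_iff]
    exact ((intervalIntegrable_iff.1 (c1.intervalIntegrable a b)).integrable).indicator hN'
  have i2 : ∀ a b : ℝ, IntervalIntegrable g2 volume a b := fun a b => by
    rw [intervalIntegrable_iff]
    exact ((intervalIntegrable_iff.1 (c2.intervalIntegrable a b)).integrable).indicator hN'.compl
  have n1 : ∀ u, 0 ≤ g1 u := fun u => Set.indicator_nonneg (fun _ _ => Real.rpow_nonneg (norm_nonneg _) _) u
  have n2 : ∀ u, 0 ≤ g2 u := fun u => Set.indicator_nonneg (fun _ _ => Real.rpow_nonneg (norm_nonneg _) _) u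
  have mneg : ∀ u : ℝ, |u| ∈ N1 → |-u| ∈ N1 := fun u hu => by rwa [abs_neg]
  have ev1 : ∀ u, g1 (-u) = g1 u := by
    intro u
    rw [hg1]
    by_cases hm : |u| ∈ N1
    · rw [Set.indicator_of_mem (show -u ∈ {u : ℝ | |u| ∈ N1} from mneg u hm),
        Set.indicator_of_mem (show u ∈ {u : ℝ | |u| ∈ N1} from hm), mz_even]
    · rw [Set.indicator_of_notMem (show -u ∉ {u : ℝ | |u| ∈ N1} from fun h => hm (by
        have := mneg _ h
        rwa [neg_neg] at this)), Set.indicator_of_notMem (show u ∉ {u : ℝ | |u| ∈ N1} from hm)]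
  have ev2 : ∀ u, g2 (-u) = g2 u := by
    intro u
    rw [hg2]
    by_cases hm : |u| ∈ N1
    · rw [Set.indicator_of_notMem (show -u ∉ {u : ℝ | |u| ∈ N1}ᶜ from fun h => h (mneg u hm)),
        Set.indicator_of_notMem (show u ∉ {u : ℝ | |u| ∈ N1}ᶜ from fun h => h hm)]
    · rw [Set.indicator_of_mem (show -u ∈ {u : ℝ | |u| ∈ N1}ᶜ from fun h => hm (by
        have := mneg _ h
        rwa [neg_neg] at this)), Set.indicator_of_mem (show u ∈ {u : ℝ | |u| ∈ N1}ᶜ from hm), mz_even]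
  have s1 := ev_shift ev1 n1 i1 hT hh
  have s2 := ev_shift ev2 n2 i2 hT hh
  -- the values
  have v1 : ∫ t in (0:ℝ)..(2 * T), g1 t = ∫ t in N1, mz δ t ^ (2 * (2 * κ)) := by
    rw [intervalIntegral.integral_of_le (by linarith), ← integral_Icc_eq_integral_Ioc, hg1,
      integral_indicator hN', Measure.restrict_restrict hN']
    congr 2
    ext t
    simp only [Set.mem_inter_iff, Set.mem_ofPred_eq]
    constructor
    · rintro ⟨h1, h2⟩
      rwa [abs_of_nonneg h2.1] at h1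
    · intro h1
      have h2 := hNT h1
      rw [abs_of_nonneg h2.1]
      exact ⟨h1, h2⟩
  have v2 : ∫ t in (0:ℝ)..(2 * T), g2 t = MR κ δ (2 * T) - ∫ t in N1, mz δ t ^ (2 * κ) := by
    rw [MR_Icc (by linarith), intervalIntegral.integral_of_le (by linarith), ← integral_Icc_eq_integral_Ioc, hg2,
      integral_indicator hN'.compl, Measure.restrict_restrict hN'.compl]
    have h3 : {u : ℝ | |u| ∈ N1}ᶜ ∩ Set.Icc 0 (2 * T) = Set.Icc 0 (2 * T) \ N1 := by
      ext t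
      simp only [Set.mem_inter_iff, Set.mem_compl_iff, Set.mem_ofPred_eq, Set.mem_sdiff]
      constructor
      · rintro ⟨h1, h2⟩
        rw [abs_of_nonneg h2.1] at h1
        exact ⟨h2, h1⟩
      · rintro ⟨h2, h1⟩
        rw [abs_of_nonneg h2.1]
        exact ⟨h1, h2⟩
    rw [h3]
    have h4 := integral_inter_add_sdiff hN (c2.continuousOn.integrableOn_Icc (μ := volume) (a := 0) (b := 2 * T))
    rw [Set.inter_eq_self_of_subset_right hNT] at h4
    linarith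
  -- integrability of the shifts
  have j1 : IntegrableOn (fun t => g1 (t + h)) (Set.Icc 0 T) := by
    have := (i1 h (T + h)).comp_add_right h
    rw [add_sub_cancel_right, sub_self, intervalIntegrable_iff_integrableOn_Icc_of_le hT] at this
    exact this
  have j2 : IntegrableOn (fun t => g2 (t + h)) (Set.Icc 0 T) := by
    have := (i2 h (T + h)).comp_add_right h
    rw [add_sub_cancel_right, sub_self, intervalIntegrable_iff_integrableOn_Icc_of_le hT] at this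
    exact this
  have hEfin : volume E < ⊤ := hvE.trans_lt ENNReal.ofReal_lt_top
  have hvE' : (volume : Measure ℝ).real E ≤ v := ENNReal.toReal_le_of_le_ofReal hv hvE
  have kP : IntegrableOn (fun _ : ℝ => P) E := integrableOn_const hEfin.ne
  have k1 := (j1.mono_set hET).const_mul P⁻¹
  have k2 := j2.mono_set hET
  have hpt : ∀ t : ℝ, mz δ (t + h) ^ (2 * κ) ≤ P + P⁻¹ * g1 (t + h) + g2 (t + h) := by
    intro t
    set y := mz δ (t + h) ^ (2 * κ) with hy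
    have hy0 : 0 ≤ y := Real.rpow_nonneg (norm_nonneg _) _
    by_cases hm : |t + h| ∈ N1
    · have e1 : g1 (t + h) = y ^ 2 := by
        rw [hg1, Set.indicator_of_mem (by exact hm), hy, ← Real.rpow_natCast,
          ← Real.rpow_mul (Pool.Agent.N438.MJ.Tr.mz_nn _ _)]
        congr 1
        push_cast
        ring
      have e2 := n2 (t + h)
      rw [e1]
      have e3 : y ≤ P + P⁻¹ * y ^ 2 := by
        have h5 : y * P ≤ P ^ 2 + y ^ 2 := by nlinarith [sq_nonneg (y - P)]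
        have h6 : P + P⁻¹ * y ^ 2 = P⁻¹ * (P ^ 2 + y ^ 2) := by field_simp
        rw [h6]
        calc y = P⁻¹ * (y * P) := by field_simp
          _ ≤ _ := by gcongr
      linarith
    · have e1 : g2 (t + h) = y := by
        rw [hg2, Set.indicator_of_mem (by exact hm)]
      have e2 := mul_nonneg (inv_nonneg.2 hP.le) (n1 (t + h))
      rw [e1]
      linarith
  have b1 : ∫ t in E, mz δ (t + h) ^ (2 * κ) ≤ ∫ t in E, (P + P⁻¹ * g1 (t + h) + g2 (t + h)) :=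
    integral_mono ((mzs_cont h0 hκ h).continuousOn.integrableOn_Icc.mono_set hET) ((kP.add k1).add k2) hpt
  have b2 : ∫ t in E, (P + P⁻¹ * g1 (t + h) + g2 (t + h)) =
      (volume : Measure ℝ).real E * P + P⁻¹ * (∫ t in E, g1 (t + h)) + ∫ t in E, g2 (t + h) := by
    have e1 := integral_add (kP.add k1) k2
    have e2 := integral_add kP k1
    rw [setIntegral_const, smul_eq_mul, integral_const_mul] at e2
    rw [← e2]
    exact e1
  have b3 : ∫ t in E, g1 (t + h) ≤ ∫ t in (0:ℝ)..T, g1 (t + h) := by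
    rw [intervalIntegral.integral_of_le hT, ← integral_Icc_eq_integral_Ioc]
    exact setIntegral_mono_set j1 (Eventually.of_forall fun t => n1 _) hET.eventuallyLE
  have b4 : ∫ t in E, g2 (t + h) ≤ ∫ t in (0:ℝ)..T, g2 (t + h) := by
    rw [intervalIntegral.integral_of_le hT, ← integral_Icc_eq_integral_Ioc]
    exact setIntegral_mono_set j2 (Eventually.of_forall fun t => n2 _) hET.eventuallyLE
  rw [v1] at s1
  rw [v2] at s2
  have b5 : (volume : Measure ℝ).real E * P ≤ P * v := by rw [mul_comm]; gcongr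
  have b6 : P⁻¹ * (∫ t in E, g1 (t + h)) ≤ P⁻¹ * (2 * ∫ t in N1, mz δ t ^ (2 * (2 * κ))) := by
    gcongr
    linarith
  rw [b2] at b1
  linarith

lemma FF_meas {m : ℕ} (b : Fin m → ℂ) (n : Fin m → ℤ) (h : Fin m → ℝ) {δ : ℝ} (h0 : δ ≤ 1 / 16) :
    Measurable (FF b n h δ) := by
  unfold FF
  refine Finset.measurable_prod _ fun j _ => ?_
  have hz : Measurable fun t : ℝ => riemannZeta (pw δ (t + h j)) :=
    ((Pool.Agent.N438.MJ.Tr.contZ h0).comp (continuous_id.add continuous_const)).measurable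
  unfold ZZ
  exact ((Complex.measurable_ofReal.comp hz.norm).pow_const _).mul
    ((hz.div (Complex.measurable_ofReal.comp hz.norm)).pow_const _)

lemma FF_int {m : ℕ} {b : Fin m → ℂ} (n : Fin m → ℤ) (h : Fin m → ℝ) {δ : ℝ} (h0 : δ ≤ 1 / 16)
    (hb : ∀ j, 0 ≤ (b j).re) (T : ℝ) : IntegrableOn (FF b n h δ) (Set.Icc 0 T) := by
  have hq : 0 ≤ ∑ j, (b j).re := Finset.sum_nonneg fun j _ => hb j
  refine Integrable.mono' (g := fun t => 1 + ∑ j, mz δ (t + h j) ^ (2 * ∑ j, (b j).re)) ?_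
    (FF_meas b n h h0).aestronglyMeasurable (Eventually.of_forall fun t => FF_le n h δ t hb le_rfl)
  exact ((continuous_const.add (continuous_finsetSum _ fun j _ => mzs_cont h0 hq (h j))).continuousOn).integrableOn_Icc

/-- **One polynomial bound gives all joint moments of lower order.** -/
theorem jx (hJ : S_JMF) {d : ℝ → ℝ} (hd : Ad d) {κ A : ℝ} (hκ : 0 < κ)
    (hM : ∀ᶠ T : ℝ in atTop, MR κ (d T) (2 * T) ≤ T * (d T) ^ (-A)) (m : ℕ) (R D : ℝ) {κ' : ℝ} (hκ' : κ' < κ) :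
    ∀ᶠ T : ℝ in atTop, ∀ h : Fin m → ℝ, (∀ j, |h j| ≤ T ^ ((1:ℝ) / 2)) → ∀ (b : Fin m → ℂ) (n : Fin m → ℤ),
      (∀ j, ‖b j‖ ≤ R) → (∀ j, |((n j : ℤ) : ℝ)| ≤ R) → (∀ j, 0 ≤ (b j).re) → ∑ j, (b j).re ≤ κ' →
      ‖JJ b n h (d T) T - T * DD b n h (d T)‖ ≤ (d T) ^ D * T := by
  obtain ⟨Q, hQ⟩ : ∃ Q, Q = max R 1 := ⟨_, rfl⟩
  have hQ1 : 1 ≤ Q := by rw [hQ]; exact le_max_right _ _
  have hQR : R ≤ Q := by rw [hQ]; exact le_max_left _ _
  obtain ⟨q, hq⟩ : ∃ q, q = max κ' 0 := ⟨_, rfl⟩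
  have hq0 : 0 ≤ q := by rw [hq]; exact le_max_right _ _
  have hqκ : κ' ≤ q := by rw [hq]; exact le_max_left _ _
  have hqκ2 : q < κ := by rw [hq]; exact max_lt hκ' hκ
  obtain ⟨A', hA'⟩ : ∃ A', A' = max A 0 := ⟨_, rfl⟩
  have hA0 : 0 ≤ A' := by rw [hA']; exact le_max_right _ _
  have hAA : A ≤ A' := by rw [hA']; exact le_max_left _ _
  obtain ⟨D1, hD1⟩ : ∃ D1, D1 = max D 1 := ⟨_, rfl⟩
  have hD11 : 1 ≤ D1 := by rw [hD1]; exact le_max_right _ _
  have hDD : D ≤ D1 := by rw [hD1]; exact le_max_left _ _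
  obtain ⟨B, hB⟩ : ∃ B, B = (A' + D1 + 1) / (2 * (κ - q)) := ⟨_, rfl⟩
  have hκq : 0 < 2 * (κ - q) := by linarith
  have hB0 : 0 < B := by rw [hB]; positivity
  have hBe : 2 * (κ - q) * B = A' + D1 + 1 := by rw [hB]; exact mul_div_cancel₀ _ hκq.ne'
  obtain ⟨D2, hD2⟩ : ∃ D2, D2 = 2 * κ * B + D1 + 1 := ⟨_, rfl⟩
  have hκB : 0 < 2 * κ * B := by positivity
  have hD20 : 0 < D2 := by rw [hD2]; positivity
  have g1 := (hJ m Q D2 (by linarith) hD20).app hd
  have g2 := (Ev.small (C := 2 + 3 * m) (c := 1) (e := 1) one_pos one_pos).app hd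
  have g4 := (Ev.of_le (d := 1 / 16) (by norm_num)).app hd
  filter_upwards [g1, g2, g4, hd.pos, hM, eventually_ge_atTop 1] with T g1 g2 g4 g5 hM hT1 h hh b n hb hn hbr hbs
  have hT : 0 < T := by linarith
  obtain ⟨N, n1, n2, n3, n4, n5⟩ := g1 h hh
  set δ := d T with hδ
  rw [Real.rpow_one] at g2
  have hδ1 : δ ≤ 1 := by linarith
  have hP1 : 1 ≤ δ ^ (-B) := by
    rw [Real.rpow_neg g5.le]
    exact (one_le_inv₀ (by positivity)).2 (Real.rpow_le_one g5.le (by linarith) hB0.le)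
  have hhT : ∀ j, |h j| ≤ T := fun j => (hh j).trans (by
    calc T ^ ((1:ℝ) / 2) ≤ T ^ (1:ℝ) := Real.rpow_le_rpow_of_exponent_le hT1 (by norm_num)
      _ = T := Real.rpow_one T)
  have hf := FF_int n h g4 hbr T
  set E : Set ℝ := Set.Icc 0 T \ N with hE
  have hEm : MeasurableSet E := measurableSet_Icc.diff n1
  have hvE : (volume : Measure ℝ).real E ≤ δ ^ D2 * T := by
    rw [Measure.real]
    exact ENNReal.toReal_le_of_le_ofReal (by positivity) n3
  have hEfin : volume E < ⊤ := n3.trans_lt ENNReal.ofReal_lt_top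
  have e0 : JJ b n h δ T = (∫ t in N, FF b n h δ t) + ∫ t in E, FF b n h δ t := by
    unfold JJ
    rw [intervalIntegral.integral_of_le hT.le, ← integral_Icc_eq_integral_Ioc,
      ← integral_inter_add_sdiff n1 hf, Set.inter_eq_self_of_subset_right n2]
  have e1 : ‖∫ t in E, FF b n h δ t‖ ≤ (1 + 3 * m) * (T * δ ^ (D1 + 1)) := by
    have i0 : Integrable (fun _ : ℝ => (1:ℝ) + m * (δ ^ (-B)) ^ (2 * κ)) (volume.restrict E) :=
      integrableOn_const hEfin.ne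
    have i1 : ∀ j, IntegrableOn (fun t => mz δ (t + h j) ^ (2 * κ)) (Set.Icc 0 T) := fun j =>
      (mzs_cont g4 hκ.le (h j)).continuousOn.integrableOn_Icc
    have i2 : Integrable (fun t : ℝ => (δ ^ (-B)) ^ (-(2 * (κ - q))) * ∑ j, mz δ (t + h j) ^ (2 * κ))
        (volume.restrict E) :=
      (integrable_finsetSum _ fun j _ => (i1 j).mono_set Set.sdiff_subset).const_mul _
    have b1 : ‖∫ t in E, FF b n h δ t‖ ≤ ∫ t in E, (((1:ℝ) + m * (δ ^ (-B)) ^ (2 * κ)) +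
        (δ ^ (-B)) ^ (-(2 * (κ - q))) * ∑ j, mz δ (t + h j) ^ (2 * κ)) := by
      refine norm_integral_le_of_norm_le (i0.add i2) (Eventually.of_forall fun t => ?_)
      refine (FF_le n h δ t hbr (hbs.trans hqκ)).trans ?_
      have c1 : ∑ j, mz δ (t + h j) ^ (2 * q) ≤
          ∑ j : Fin m, ((δ ^ (-B)) ^ (2 * κ) + (δ ^ (-B)) ^ (-(2 * (κ - q))) * mz δ (t + h j) ^ (2 * κ)) :=
        Finset.sum_le_sum fun j _ => pw_split (norm_nonneg _) hP1 hq0 le_rfl hqκ2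
      rw [Finset.sum_add_distrib, Finset.sum_const, Finset.card_univ, Fintype.card_fin, nsmul_eq_mul,
        ← Finset.mul_sum] at c1
      linarith
    have b2 : ∫ t in E, (((1:ℝ) + m * (δ ^ (-B)) ^ (2 * κ)) +
        (δ ^ (-B)) ^ (-(2 * (κ - q))) * ∑ j, mz δ (t + h j) ^ (2 * κ)) =
        (volume : Measure ℝ).real E * ((1:ℝ) + m * (δ ^ (-B)) ^ (2 * κ)) +
        (δ ^ (-B)) ^ (-(2 * (κ - q))) * ∑ j, ∫ t in E, mz δ (t + h j) ^ (2 * κ) := by
      rw [integral_add i0 i2, integral_const_mul, setIntegral_const, smul_eq_mul,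
        integral_finsetSum _ fun j _ => (i1 j).mono_set Set.sdiff_subset]
    have b3 : ∀ j, ∫ t in E, mz δ (t + h j) ^ (2 * κ) ≤ 2 * (T * δ ^ (-A')) := by
      intro j
      have c1 : ∫ t in E, mz δ (t + h j) ^ (2 * κ) ≤ ∫ t in Set.Icc 0 T, mz δ (t + h j) ^ (2 * κ) :=
        setIntegral_mono_set (i1 j) (Eventually.of_forall fun t => Real.rpow_nonneg (norm_nonneg _) _)
          (Set.sdiff_subset.eventuallyLE)
      have c2 := mz_shift g4 hκ.le hT.le (hhT j)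
      rw [intervalIntegral.integral_of_le hT.le, ← integral_Icc_eq_integral_Ioc] at c2
      refine (c1.trans c2).trans ?_
      have c3 : MR κ δ (2 * T) ≤ T * δ ^ (-A') := by
        refine hM.trans ?_
        refine mul_le_mul_of_nonneg_left ?_ hT.le
        exact Real.rpow_le_rpow_of_exponent_ge g5 hδ1 (by linarith)
      linarith
    rw [b2] at b1
    have p1 : (δ ^ (-B)) ^ (2 * κ) = δ ^ (-(2 * κ * B)) := by
      rw [← Real.rpow_mul g5.le]; congr 1; ring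
    have p2 : (δ ^ (-B)) ^ (-(2 * (κ - q))) = δ ^ (A' + D1 + 1) := by
      rw [← Real.rpow_mul g5.le]; congr 1; rw [← hBe]; ring
    rw [p1, p2] at b1
    have q1 : (volume : Measure ℝ).real E * ((1:ℝ) + m * δ ^ (-(2 * κ * B))) ≤ (1 + m) * (T * δ ^ (D1 + 1)) := by
      have r1 : (1:ℝ) ≤ δ ^ (-(2 * κ * B)) := by
        rw [Real.rpow_neg g5.le]
        exact (one_le_inv₀ (by positivity)).2 (Real.rpow_le_one g5.le hδ1 hκB.le)
      calc _ ≤ (δ ^ D2 * T) * (δ ^ (-(2 * κ * B)) + m * δ ^ (-(2 * κ * B))) := by gcongr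
        _ = (1 + m) * (T * (δ ^ D2 * δ ^ (-(2 * κ * B)))) := by ring
        _ = (1 + m) * (T * δ ^ (D1 + 1)) := by
            rw [← Real.rpow_add g5]; congr 3; rw [hD2]; ring
    have q2 : δ ^ (A' + D1 + 1) * ∑ j, ∫ t in E, mz δ (t + h j) ^ (2 * κ) ≤ (2 * m) * (T * δ ^ (D1 + 1)) := by
      calc _ ≤ δ ^ (A' + D1 + 1) * ∑ _j : Fin m, 2 * (T * δ ^ (-A')) := by
            gcongr with j _
            exact b3 j
        _ = (2 * m) * (T * (δ ^ (A' + D1 + 1) * δ ^ (-A'))) := by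
            rw [Finset.sum_const, Finset.card_univ, Fintype.card_fin, nsmul_eq_mul]; ring
        _ = (2 * m) * (T * δ ^ (D1 + 1)) := by
            rw [← Real.rpow_add g5]; congr 3; ring
    have : (1 + 3 * (m:ℝ)) * (T * δ ^ (D1 + 1)) = (1 + m) * (T * δ ^ (D1 + 1)) + (2 * m) * (T * δ ^ (D1 + 1)) := by ring
    rw [this]
    linarith
  have e3 : ‖(∫ t in N, FF b n h δ t) - T * DD b n h δ‖ ≤ δ ^ D2 * T :=
    n5 b n (fun j => (hb j).trans hQR) (fun j => (hn j).trans hQR)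
  have e4 : δ ^ D2 ≤ δ ^ (D1 + 1) := Real.rpow_le_rpow_of_exponent_ge g5 hδ1 (by rw [hD2]; linarith)
  have e5 : JJ b n h δ T - T * DD b n h δ =
      ((∫ t in N, FF b n h δ t) - T * DD b n h δ) + ∫ t in E, FF b n h δ t := by
    rw [e0]; ring
  rw [e5]
  calc _ ≤ _ := norm_add_le _ _
    _ ≤ δ ^ (D1 + 1) * T + (1 + 3 * m) * (T * δ ^ (D1 + 1)) := by
        refine add_le_add (e3.trans ?_) e1
        gcongr
    _ = ((2 + 3 * m) * δ) * (δ ^ D1 * T) := by
        rw [Real.rpow_add g5, Real.rpow_one]; ring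
    _ ≤ 1 * (δ ^ D1 * T) := by gcongr
    _ = δ ^ D1 * T := one_mul _
    _ ≤ δ ^ D * T := by
        have := Real.rpow_le_rpow_of_exponent_ge g5 hδ1 hDD
        gcongr

end

end Pool.Agent.U575.JO
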