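import Pool.Agent.U575.JO.Two
import Pool.Agent.N748.MJ.SRF

set_option autoImplicit false

/-! Products of shifted zeta values near the critical line. -/

namespace Pool.Agent.U575.JO

open Finset Filter MeasureTheory Topology Complex Pool.Agent.N748.MG Pool.Agent.N748.MJ Pool.Agent.U575.RO
  Pool.Agent.U575.OL

noncomputable section

/-- the shifted moment -/
def JP {k : ℕ} (a b : Fin k → ℝ) (δ T : ℝ) : ℂ := ∫ t in (0:ℝ)..T, ZP a b δ t

lemma JP_eq {k : ℕ} (a b : Fin k → ℝ) (δ T : ℝ) :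
    JP a b δ T = JJ (fun _ => 1 / 2) (SRF.nn k) (Fin.append a b) δ T := by
  unfold JP JJ FF
  simp only [SRF.ZP_eq]

lemma ZS_DD {k : ℕ} (a b : Fin k → ℝ) {δ : ℝ} (hδ : 0 < δ) :
    ZS a b (1 / 2 + δ) = DD (fun _ => 1 / 2) (SRF.nn k) (Fin.append a b) δ := SRF.ZS_eq a b hδ

lemma nn_abs {k : ℕ} (j : Fin (k + k)) : |((SRF.nn k j : ℤ) : ℝ)| ≤ 1 := by
  induction j using Fin.addCases with
  | left i => rw [SRF.nn_l]; simp
  | right i => rw [SRF.nn_r]; simp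

lemma app_abs {k : ℕ} {a b : Fin k → ℝ} {B : ℝ} (h : ∀ j, |a j| ≤ B ∧ |b j| ≤ B) (j : Fin (k + k)) :
    |Fin.append a b j| ≤ B := by
  induction j using Fin.addCases with
  | left i => rw [Fin.append_left]; exact (h i).1
  | right i => rw [Fin.append_right]; exact (h i).2

lemma half_re (k : ℕ) : ∑ _j : Fin (k + k), ((1 / 2 : ℂ)).re = k := by
  rw [Finset.sum_const, Finset.card_univ, Fintype.card_fin, nsmul_eq_mul]
  have : ((1 / 2 : ℂ)).re = 1 / 2 := by norm_num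
  rw [this]
  push_cast
  ring

theorem prod_sub (hJ : S_JMF) {d : ℝ → ℝ} (hd : Ad d) {κ A : ℝ} (hκ : 0 < κ)
    (hM : ∀ᶠ T : ℝ in atTop, MR κ (d T) (2 * T) ≤ T * (d T) ^ (-A)) {j : ℕ} (hj : (j : ℝ) < κ) (D : ℝ) :
    ∀ᶠ T : ℝ in atTop, ∀ a b : Fin j → ℝ, (∀ i, |a i| ≤ T ^ ((1:ℝ) / 2) ∧ |b i| ≤ T ^ ((1:ℝ) / 2)) →
      ‖JP a b (d T) T - T * ZS a b (1 / 2 + d T)‖ ≤ (d T) ^ D * T := by
  filter_upwards [jx hJ hd hκ hM (j + j) 1 D hj, hd.pos] with T hT hδ a b hab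
  rw [JP_eq, ZS_DD a b hδ]
  refine hT _ (app_abs hab) _ _ (fun _ => by norm_num) nn_abs (fun _ => by norm_num) ?_
  rw [half_re]

theorem prod_crit (hJ : S_JMF) (hC : S_CM) {d : ℝ → ℝ} (hd : Ad d) {k : ℕ} (hk : 1 ≤ k)
    (hU : ∀ ε : ℝ, 0 < ε → ∀ᶠ T : ℝ in atTop,
      (2 * d T) ^ ((k : ℝ) ^ 2) * (1 / T * MR k (d T) (2 * T)) ≤ 2 * (aC ((k : ℝ) : ℂ)).re + ε) {ε : ℝ} (hε : 0 < ε) :
    ∀ᶠ T : ℝ in atTop, ∀ a b : Fin k → ℝ, (∀ i, |a i| ≤ T ^ ((1:ℝ) / 2) ∧ |b i| ≤ T ^ ((1:ℝ) / 2)) →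
      ‖JP a b (d T) T - T * ZS a b (1 / 2 + d T)‖ ≤ ε * (T * (2 * d T) ^ (-((k : ℝ) ^ 2))) := by
  have hk0 : (0:ℝ) < k := by exact_mod_cast hk
  filter_upwards [jc hJ hC hd hk0 hU (k + k) 1 hε, hd.pos] with T hT hδ a b hab
  rw [JP_eq, ZS_DD a b hδ]
  refine hT _ (app_abs hab) _ _ (fun _ => by norm_num) nn_abs (fun _ => by norm_num) ?_
  rw [half_re]

/-! ### no shifts -/

lemma ZP_zero (k : ℕ) (δ t : ℝ) : ZP (fun _ : Fin k => 0) (fun _ => 0) δ t = ((mz δ t ^ (2 * (k : ℝ)) : ℝ) : ℂ) := by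
  unfold ZP
  have e1 : ∀ _j : Fin k, riemannZeta (1 / 2 + δ + (t + ((0 : ℝ) : ℂ)) * I) *
      riemannZeta (1 / 2 + δ - (t + ((0 : ℝ) : ℂ)) * I) = ((mz δ t ^ 2 : ℝ) : ℂ) := by
    intro j
    have h1 := SRF.conj_r (fun _ : Fin k => (0:ℝ)) δ t j
    rw [h1]
    have h2 : riemannZeta (1 / 2 + δ + (t + ((0 : ℝ) : ℂ)) * I) = riemannZeta (pw δ (t + 0)) := by
      unfold pw
      push_cast
      rfl
    rw [h2, Complex.mul_conj, Complex.normSq_eq_norm_sq, add_zero]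
    rfl
  rw [Finset.prod_congr rfl fun j _ => e1 j, Finset.prod_const, Finset.card_univ, Fintype.card_fin,
    ← Complex.ofReal_pow, ← pow_mul, ← Real.rpow_natCast]
  push_cast
  rfl

lemma JP_zero (k : ℕ) (δ T : ℝ) : JP (fun _ : Fin k => 0) (fun _ => 0) δ T = ((MR k δ T : ℝ) : ℂ) := by
  unfold JP MR
  simp only [ZP_zero]
  exact intervalIntegral.integral_ofReal

/-- the shifted moments give a power of the distance -/
theorem poly_of_prod (hB : S_BND) {d : ℝ → ℝ} (hd : Ad d) {k : ℕ} {A : ℝ}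
    (h : ∀ᶠ T : ℝ in atTop, ‖JP (fun _ : Fin k => 0) (fun _ => 0) (d T) T -
      T * ZS (fun _ : Fin k => 0) (fun _ => 0) (1 / 2 + d T)‖ ≤ T * (d T) ^ (-A)) :
    ∃ A' : ℝ, ∀ᶠ T : ℝ in atTop, MR k (d T) T ≤ T * (d T) ^ (-A') := by
  obtain ⟨C, hC, hs⟩ := SRF.ser_bound hB (k + k) 1 zero_le_one
  refine ⟨max C A + 1, ?_⟩
  filter_upwards [h, hd.pos, hd.t0.eventually_le_const (show (0:ℝ) < 1 / 16 by norm_num), eventually_gt_atTop 0] with
    T h1 h2 h3 h4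
  have hd1 : d T ≤ 1 := by linarith
  have h5 : ‖ZS (fun _ : Fin k => 0) (fun _ => 0) (1 / 2 + d T)‖ ≤ d T ^ (-C) := by
    rw [ZS_DD _ _ h2]
    have hsp : ∀ j, ‖sp (fun _ => 1 / 2) (SRF.nn k) j‖ ≤ 1 := by
      intro j
      induction j using Fin.addCases with
      | left i => rw [SRF.sp_l]; simp
      | right i => rw [SRF.sp_r]; simp
    have hsm : ∀ j, ‖sm (fun _ => 1 / 2) (SRF.nn k) j‖ ≤ 1 := by
      intro j
      have e : ‖sm (fun _ => 1 / 2) (SRF.nn k) j‖ = ‖cj (sm (fun _ => 1 / 2) (SRF.nn k)) j‖ := by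
        unfold cj
        rw [RCLike.norm_conj]
      rw [e]
      induction j using Fin.addCases with
      | left i => rw [SRF.sm_l]; simp
      | right i => rw [SRF.sm_r]; simp
    exact hs (d T) h2 h3 _ _ _ hsp hsm
  have h6 : MR k (d T) T ≤ ‖JP (fun _ : Fin k => 0) (fun _ => 0) (d T) T‖ := by
    rw [JP_zero, Complex.norm_real]
    exact le_abs_self _
  have h7 : ‖JP (fun _ : Fin k => 0) (fun _ => 0) (d T) T‖ ≤
      ‖JP (fun _ : Fin k => 0) (fun _ => 0) (d T) T - T * ZS (fun _ : Fin k => 0) (fun _ => 0) (1 / 2 + d T)‖ +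
      T * ‖ZS (fun _ : Fin k => 0) (fun _ => 0) (1 / 2 + d T)‖ := by
    have e : JP (fun _ : Fin k => 0) (fun _ => 0) (d T) T =
      (JP (fun _ : Fin k => 0) (fun _ => 0) (d T) T - T * ZS (fun _ : Fin k => 0) (fun _ => 0) (1 / 2 + d T)) +
        T * ZS (fun _ : Fin k => 0) (fun _ => 0) (1 / 2 + d T) := by ring
    have h8 := norm_add_le (JP (fun _ : Fin k => 0) (fun _ => 0) (d T) T -
      T * ZS (fun _ : Fin k => 0) (fun _ => 0) (1 / 2 + d T)) (T * ZS (fun _ : Fin k => 0) (fun _ => 0) (1 / 2 + d T))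
    rw [← e, norm_mul, Complex.norm_real, Real.norm_of_nonneg h4.le] at h8
    exact h8
  have e1 : d T ^ (-A) ≤ d T ^ (-(max C A)) :=
    Real.rpow_le_rpow_of_exponent_ge h2 hd1 (by have := le_max_right C A; linarith)
  have e2 : d T ^ (-C) ≤ d T ^ (-(max C A)) :=
    Real.rpow_le_rpow_of_exponent_ge h2 hd1 (by have := le_max_left C A; linarith)
  have e3 : 2 * d T ^ (-(max C A)) ≤ d T ^ (-(max C A + 1)) := by
    have e4 : d T ^ (-(max C A + 1)) = (d T)⁻¹ * d T ^ (-(max C A)) := by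
      rw [neg_add, Real.rpow_add h2, Real.rpow_neg_one, mul_comm]
    rw [e4]
    have e5 : 2 ≤ (d T)⁻¹ := by
      rw [le_inv_comm₀ (by norm_num) h2]
      linarith
    gcongr
  calc MR k (d T) T ≤ T * d T ^ (-A) + T * d T ^ (-C) := by
        have := mul_le_mul_of_nonneg_left h5 h4.le
        linarith
    _ ≤ T * d T ^ (-(max C A)) + T * d T ^ (-(max C A)) := by gcongr
    _ = T * (2 * d T ^ (-(max C A))) := by ring
    _ ≤ _ := by gcongr

end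

end Pool.Agent.U575.JO
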