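import Pool.Agent.U575.JO.Prod

set_option autoImplicit false

/-! Shifted moments near the line and moments on the line. -/

namespace Pool.Agent.U575.JO

open Filter MeasureTheory Topology Complex Pool.Agent.N748.MG Pool.Agent.N748.MJ Pool.Agent.U575.RO
  Pool.Agent.U575.OL

noncomputable section

/-- the shifts are at most `T^(1/2)` -/
def Adm2 {k : ℕ} (T : ℝ) (a b : Fin k → ℝ) : Prop := ∀ j, |a j| ≤ T ^ ((1:ℝ) / 2) ∧ |b j| ≤ T ^ ((1:ℝ) / 2)

/-- the shifted moments of order `2k`, with the precision of the largest one -/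
def Sh (c : ℝ → ℝ) (k : ℕ) : Prop := ∀ δ ε : ℝ, 0 < δ → 0 < ε → ∀ᶠ T : ℝ in atTop, ∀ a b : Fin k → ℝ, Adm2 T a b →
  ‖JP a b (δ * c T / Real.log T) T - T * ZS a b (1 / 2 + δ * c T / Real.log T)‖ ≤
    ε * (T * (2 * (δ * c T / Real.log T)) ^ (-((k : ℝ) ^ 2)))

/-- the shifted moments of order `2k`, up to every power of the distance -/
def ShD (c : ℝ → ℝ) (k : ℕ) : Prop := ∀ δ D : ℝ, 0 < δ → ∀ᶠ T : ℝ in atTop, ∀ a b : Fin k → ℝ, Adm2 T a b →
  ‖JP a b (δ * c T / Real.log T) T - T * ZS a b (1 / 2 + δ * c T / Real.log T)‖ ≤ (δ * c T / Real.log T) ^ D * T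

variable {c : ℝ → ℝ} {S K : ℝ}

lemma hAk (hA : ∀ V : ℝ, (aC V).re = H306R2.aF V) (k : ℕ) : (aC ((k : ℝ) : ℂ)).re = H306R2.aF k := hA k

lemma line_sh (hJ : S_JMF) (hC : S_CM) (hA : ∀ V : ℝ, (aC V).re = H306R2.aF V) (h : Sc c S K) {k : ℕ} (hk : 1 ≤ k)
    (hL : Line c k) : Sh c k := by
  intro δ ε hδ hε
  have := prod_crit hJ hC (ad_of h.big h.small hδ) hk (two_U (line_two h hk hL hδ) (hAk hA k)) hε
  filter_upwards [this] with T hT a b hab
  have e : (((δ * c T / Real.log T : ℝ)) : ℂ) = δ * c T / Real.log T := by push_cast; rfl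
  have h1 := hT a b hab
  have e2 : (1 / 2 + (δ * c T / Real.log T) : ℝ) = 1 / 2 + δ * c T / Real.log T := rfl
  exact h1

lemma line_shD (hJ : S_JMF) (h : Sc c S K) {k : ℕ} (hk : 1 ≤ k) (hL : Line c k) {j : ℕ} (hj : j < k) : ShD c j := by
  intro δ D hδ
  have hd := ad_of h.big h.small hδ
  have hk0 : (0:ℝ) < k := by exact_mod_cast hk
  exact prod_sub hJ hd hk0 (two_poly hd (line_two h hk hL hδ)) (by exact_mod_cast hj) D

/-- powers of the distance and of the logarithm -/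
lemma pow_log {d : ℝ → ℝ} (h0 : ∀ᶠ T : ℝ in atTop, 0 < d T) (h1 : ∀ᶠ T : ℝ in atTop, d T ≤ 1)
    (hl : ∀ᶠ T : ℝ in atTop, 1 / Real.log T ≤ d T) {κ A : ℝ}
    (h : ∀ᶠ T : ℝ in atTop, MR κ (d T) T ≤ T * d T ^ (-A)) :
    ∀ᶠ T : ℝ in atTop, MR κ (d T) T ≤ T * Real.log T ^ (max A 0) := by
  filter_upwards [h0, h1, hl, h, eventually_gt_atTop 0, Real.tendsto_log_atTop.eventually_gt_atTop 0] with
    T g0 g1 gl g gT gL
  refine g.trans (mul_le_mul_of_nonneg_left ?_ gT.le)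
  calc d T ^ (-A) ≤ d T ^ (-(max A 0)) :=
        Real.rpow_le_rpow_of_exponent_ge g0 g1 (by have := le_max_left A 0; linarith)
    _ = (d T)⁻¹ ^ (max A 0) := by rw [Real.rpow_neg g0.le, Real.inv_rpow g0.le]
    _ ≤ Real.log T ^ (max A 0) := by
        refine Real.rpow_le_rpow (by positivity) ?_ (le_max_right _ _)
        rw [inv_le_comm₀ g0 gL, ← one_div]
        exact gl

lemma sc_log (h : Sc c S K) {δ : ℝ} (hδ : 0 < δ) : ∀ᶠ T : ℝ in atTop, 1 / Real.log T ≤ δ * c T / Real.log T := by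
  filter_upwards [((big_top h.big).const_mul_atTop hδ).eventually_ge_atTop 1,
    Real.tendsto_log_atTop.eventually_gt_atTop 0] with T h1 h2
  gcongr

lemma adm_zero {k : ℕ} {T : ℝ} (hT : 0 ≤ T) : Adm2 T (fun _ : Fin k => 0) (fun _ => 0) := fun _ => by
  rw [abs_zero]
  exact ⟨Real.rpow_nonneg hT _, Real.rpow_nonneg hT _⟩

lemma sh_poly (hB : S_BND) (h : Sc c S K) {k : ℕ} (hS : Sh c k) : Poly c k := by
  intro δ hδ
  have hd := ad_of h.big h.small hδ
  have hd1 : ∀ᶠ T : ℝ in atTop, δ * c T / Real.log T ≤ 1 := hd.t0.eventually_le_const one_pos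
  obtain ⟨A', hA'⟩ := poly_of_prod hB hd (k := k) (A := (k:ℝ) ^ 2) (by
    filter_upwards [hS δ 1 hδ one_pos, hd.pos, eventually_ge_atTop 0] with T h1 h2 h3
    refine (h1 _ _ (adm_zero h3)).trans ?_
    rw [one_mul]
    refine mul_le_mul_of_nonneg_left ?_ h3
    exact Real.rpow_le_rpow_of_nonpos h2 (by linarith) (by have := sq_nonneg (k:ℝ); linarith))
  exact ⟨_, pow_log hd.pos hd1 (sc_log h hδ) hA'⟩

lemma shD_poly (hB : S_BND) (h : Sc c S K) {k : ℕ} (hS : ShD c k) : Poly c k := by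
  intro δ hδ
  have hd := ad_of h.big h.small hδ
  have hd1 : ∀ᶠ T : ℝ in atTop, δ * c T / Real.log T ≤ 1 := hd.t0.eventually_le_const one_pos
  obtain ⟨A', hA'⟩ := poly_of_prod hB hd (k := k) (A := 0) (by
    filter_upwards [hS δ 0 hδ, eventually_ge_atTop 0] with T h1 h3
    refine (h1 _ _ (adm_zero h3)).trans ?_
    rw [neg_zero, Real.rpow_zero]
    linarith)
  exact ⟨_, pow_log hd.pos hd1 (sc_log h hδ) hA'⟩

theorem tfae_sh (hJ : S_JMF) (hC : S_CM) (hB : S_BND) (hA : ∀ V : ℝ, (aC V).re = H306R2.aF V) (h : Sc c S K) {k : ℕ}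
    (hk : 1 ≤ k) : List.TFAE [Line c k, Sh c k, Poly c k] := by
  tfae_have 1 → 2 := line_sh hJ hC hA h hk
  tfae_have 2 → 3 := sh_poly hB h
  tfae_have 3 → 1 := poly_line h
  tfae_finish

theorem tfae_shAll (hJ : S_JMF) (hC : S_CM) (hB : S_BND) (hA : ∀ V : ℝ, (aC V).re = H306R2.aF V) (h : Sc c S K) :
    List.TFAE [∀ k : ℕ, 1 ≤ k → Line c k, ∀ k : ℕ, ShD c k, ∀ k : ℕ, 1 ≤ k → Sh c k] := by
  tfae_have 1 → 2 := fun hL k => line_shD hJ h (k := k + 1) (by omega) (hL (k + 1) (by omega)) (Nat.lt_succ_self k)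
  tfae_have 2 → 1 := fun hS k _ => poly_line h (shD_poly hB h (hS k))
  tfae_have 1 → 3 := fun hL k hk => line_sh hJ hC hA h hk (hL k hk)
  tfae_have 3 → 1 := fun hS k hk => poly_line h (sh_poly hB h (hS k hk))
  tfae_finish

/-! ### the Lindelöf hypothesis -/

/-- under the Lindelöf hypothesis there is one good distance for all orders -/
lemma LH_dist (h : MU.LH) : ∃ d : ℝ → ℝ, Ad d ∧ ∀ k : ℕ, 1 ≤ k →
    Tendsto (fun T : ℝ => (2 * d T) ^ ((k:ℝ) ^ 2) * (1 / T * MR k (d T) (2 * T))) atTop (𝓝 (2 * H306R2.aF k)) := by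
  obtain ⟨c, hc1, hc2, hc3⟩ := LH_scale h
  have h2 : Tendsto (fun T : ℝ => 2 * T) atTop atTop := tendsto_id.const_mul_atTop two_pos
  have hcp : ∀ᶠ T : ℝ in atTop, 0 < c T := (big_top hc1).eventually_gt_atTop 0
  have hb : Tendsto (fun T => c (2 * T) / Real.log (Real.log T) ^ 2) atTop atTop := by
    refine tendsto_atTop_mono' _ ?_ (hc1.comp h2)
    filter_upwards [h2.eventually hcp, ll_top.eventually_gt_atTop 0, Real.tendsto_log_atTop.eventually_gt_atTop 0,
      eventually_gt_atTop 0] with T h3 h4 h5 h6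
    simp only [Function.comp_apply]
    have h7 : Real.log (Real.log T) ≤ Real.log (Real.log (2 * T)) :=
      Real.log_le_log h5 (Real.log_le_log h6 (by linarith))
    gcongr
  have ho : Tendsto (fun T => c (2 * T) / Real.log T) atTop (𝓝 0) := by
    have h3 := (hc2.comp h2).const_mul 2
    rw [mul_zero] at h3
    refine tendsto_of_tendsto_of_tendsto_of_le_of_le' tendsto_const_nhds h3 ?_ ?_
    · filter_upwards [h2.eventually hcp, Real.tendsto_log_atTop.eventually_gt_atTop 0] with T h4 h5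
      positivity
    · filter_upwards [h2.eventually hcp, Real.tendsto_log_atTop.eventually_gt_atTop 0, eventually_ge_atTop 2] with
        T h4 h5 h6
      simp only [Function.comp_apply]
      have h7 : Real.log (2 * T) ≤ 2 * Real.log T := by
        have h8 : Real.log (2 * T) ≤ Real.log (T ^ 2) := Real.log_le_log (by positivity) (by nlinarith)
        rw [Real.log_pow] at h8
        exact_mod_cast h8
      have h8 : 0 < Real.log (2 * T) := Real.log_pos (by linarith)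
      rw [div_le_iff₀ h5]
      calc c (2 * T) = c (2 * T) / Real.log (2 * T) * Real.log (2 * T) := by field_simp
        _ ≤ c (2 * T) / Real.log (2 * T) * (2 * Real.log T) := by gcongr
        _ = _ := by ring
  have had : Ad (fun T => 1 * c (2 * T) / Real.log T) := ad_of hb ho one_pos
  simp only [one_mul] at had
  refine ⟨_, had, fun k hk => near_two hk ho ?_ (θ := 1) zero_le_one one_lt_two (C := 2) ?_⟩
  · refine (big_top hb).congr' ?_
    filter_upwards [Real.tendsto_log_atTop.eventually_gt_atTop 0] with T h1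
    field_simp
  · filter_upwards [h2.eventually (hc3 k), Real.tendsto_log_atTop.eventually_ge_atTop 1, eventually_gt_atTop 0] with
      T h1 h3 h4
    have e1 : c (2 * T) / Real.log T * Real.log T = c (2 * T) := by
      have : Real.log T ≠ 0 := by linarith
      field_simp
    rw [e1, one_mul]
    have e2 : (2:ℝ) * (2 * T) = 4 * T := by ring
    rw [e2] at h1
    have e3 : 1 ≤ Real.log T ^ (k ^ 2) := one_le_pow₀ h3
    calc J k 0 (4 * T) ≤ 2 * T * Real.exp (c (2 * T)) := h1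
      _ = 2 * (T * 1) * Real.exp (c (2 * T)) := by ring
      _ ≤ _ := by gcongr

theorem LH_sh (hJ : S_JMF) (hB : S_BND) : List.TFAE [
    MU.LH,
    ∃ d : ℝ → ℝ, Ad d ∧ ∀ (k : ℕ) (D : ℝ), ∀ᶠ T : ℝ in atTop, ∀ a b : Fin k → ℝ, Adm2 T a b →
      ‖JP a b (d T) T - T * ZS a b (1 / 2 + d T)‖ ≤ d T ^ D * T,
    ∃ d : ℝ → ℝ, Ad d ∧ ∀ k : ℕ, ∃ A : ℝ, ∀ᶠ T : ℝ in atTop, ‖JP (fun _ : Fin k => 0) (fun _ => 0) (d T) T -
      T * ZS (fun _ : Fin k => 0) (fun _ => 0) (1 / 2 + d T)‖ ≤ T * (d T) ^ (-A)] := by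
  tfae_have 1 → 2 := by
    intro h
    obtain ⟨d, hd, hL⟩ := LH_dist h
    refine ⟨d, hd, fun k D => ?_⟩
    exact prod_sub hJ hd (κ := ((k + 1 : ℕ) : ℝ)) (by positivity) (two_poly hd (hL (k + 1) (by omega)))
      (by push_cast; linarith) D
  tfae_have 2 → 3 := by
    rintro ⟨d, hd, h⟩
    refine ⟨d, hd, fun k => ⟨0, ?_⟩⟩
    filter_upwards [h k 0, eventually_ge_atTop 0] with T h1 h2
    refine (h1 _ _ (adm_zero h2)).trans ?_
    rw [neg_zero, Real.rpow_zero]
    linarith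
  tfae_have 3 → 1 := by
    rintro ⟨d, hd, h⟩
    refine LH_of_poly hd fun k => ?_
    obtain ⟨A, hA⟩ := h k
    obtain ⟨A', hA'⟩ := poly_of_prod hB hd hA
    exact ⟨_, pow_log hd.pos (hd.t0.eventually_le_const one_pos) (ad_log hd) hA'⟩
  tfae_finish

end

end Pool.Agent.U575.JO
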