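import Pool.Agent.U575.JO.Jc
import Pool.Agent.U575.RO.All

set_option autoImplicit false

/-! The moment over `[0, 2T]` at the distance `d(T)`. -/

namespace Pool.Agent.U575.JO

open Finset Filter MeasureTheory Topology Complex Pool.Agent.N748.MG Pool.Agent.N748.MJ Pool.Agent.U575.RO
  Pool.Agent.U575.OL

noncomputable section

theorem near_two {k : ℕ} (hk : 1 ≤ k) {d : ℝ → ℝ} (h0 : Tendsto d atTop (𝓝 0))
    (hL : Tendsto (fun T => d T * Real.log T) atTop atTop) {θ : ℝ} (hθ0 : 0 ≤ θ) (hθ : θ < 2) {C : ℝ}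
    (hM : ∀ᶠ T : ℝ in atTop, J k 0 (4 * T) ≤ C * (T * Real.log T ^ (k ^ 2)) * Real.exp (θ * (d T * Real.log T))) :
    Tendsto (fun T : ℝ => (2 * d T) ^ ((k:ℝ) ^ 2) * (1 / T * MR k (d T) (2 * T))) atTop (𝓝 (2 * H306R2.aF k)) := by
  obtain ⟨c, hc⟩ : ∃ c : ℝ → ℝ, c = fun U => d (U / 2) * Real.log U := ⟨_, rfl⟩
  have h2 : Tendsto (fun U : ℝ => U / 2) atTop atTop := tendsto_id.atTop_div_const two_pos
  have hlog : ∀ᶠ U : ℝ in atTop, 0 < d (U / 2) ∧ 0 < Real.log (U / 2) ∧ Real.log (U / 2) ≤ Real.log U := by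
    filter_upwards [(hL.comp h2).eventually_gt_atTop 0, h2.eventually (Real.tendsto_log_atTop.eventually_gt_atTop 0),
      eventually_gt_atTop 0] with U h3 h4 h5
    simp only [Function.comp_apply] at h3
    refine ⟨pos_of_mul_pos_left h3 h4.le, h4, Real.log_le_log (by positivity) (by linarith)⟩
  have hct : Tendsto c atTop atTop := by
    refine tendsto_atTop_mono' _ ?_ (hL.comp h2)
    filter_upwards [hlog] with U h3
    obtain ⟨h4, h5, h6⟩ := h3
    rw [hc]
    simp only [Function.comp_apply]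
    gcongr
  have hco : Tendsto (fun U => c U / Real.log U) atTop (𝓝 0) := by
    refine (h0.comp h2).congr' ?_
    filter_upwards [Real.tendsto_log_atTop.eventually_gt_atTop 0] with U h3
    rw [hc]
    simp only [Function.comp_apply]
    field_simp
  have hM' : ∀ᶠ U : ℝ in atTop, J k 0 (2 * U) ≤ |C| * (U * Real.log U ^ (k ^ 2)) * Real.exp (θ * c U) := by
    filter_upwards [h2.eventually hM, hlog, eventually_gt_atTop 0] with U h3 h4 h5
    obtain ⟨h6, h7, h8⟩ := h4
    have e1 : 4 * (U / 2) = 2 * U := by ring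
    rw [e1] at h3
    refine h3.trans ?_
    rw [hc]
    simp only
    have h9 : U / 2 ≤ U := by linarith
    have h10 : 0 < Real.log U := h7.trans_le h8
    have h11 : 0 ≤ |C| * (U * Real.log U ^ (k ^ 2)) := by positivity
    calc C * (U / 2 * Real.log (U / 2) ^ (k ^ 2)) * Real.exp (θ * (d (U / 2) * Real.log (U / 2))) ≤
          |C| * (U / 2 * Real.log (U / 2) ^ (k ^ 2)) * Real.exp (θ * (d (U / 2) * Real.log (U / 2))) := by
            gcongr; exact le_abs_self C
      _ ≤ |C| * (U * Real.log U ^ (k ^ 2)) * Real.exp (θ * (d (U / 2) * Real.log U)) := by gcongr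
  have hA := asym_real hct (fwd hk hct hco hθ0 hθ hM')
  have h3 : Tendsto (fun T : ℝ => 2 * T) atTop atTop := tendsto_id.const_mul_atTop two_pos
  have h4 := (hA.comp h3).const_mul 2
  refine h4.congr' ?_
  filter_upwards [Real.tendsto_log_atTop.comp h3 |>.eventually_gt_atTop 0, eventually_gt_atTop 0] with T h5 h6
  simp only [Function.comp_apply] at h5
  have e1 : c (2 * T) / Real.log (2 * T) = d T := by
    rw [hc]
    have : 2 * T / 2 = T := by ring
    simp only [this]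
    field_simp
  simp only [Function.comp_apply]
  rw [e1]
  field_simp

lemma two_U {κ a : ℝ} {d : ℝ → ℝ}
    (h : Tendsto (fun T : ℝ => (2 * d T) ^ (κ ^ 2) * (1 / T * MR κ (d T) (2 * T))) atTop (𝓝 (2 * a)))
    (ha : (aC κ).re = a) : ∀ ε : ℝ, 0 < ε → ∀ᶠ T : ℝ in atTop,
      (2 * d T) ^ (κ ^ 2) * (1 / T * MR κ (d T) (2 * T)) ≤ 2 * (aC κ).re + ε := by
  intro ε hε
  rw [ha]
  exact h.eventually_le_const (by linarith)

lemma two_poly {κ a : ℝ} {d : ℝ → ℝ} (hd : Ad d)
    (h : Tendsto (fun T : ℝ => (2 * d T) ^ (κ ^ 2) * (1 / T * MR κ (d T) (2 * T))) atTop (𝓝 a)) :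
    ∀ᶠ T : ℝ in atTop, MR κ (d T) (2 * T) ≤ T * (d T) ^ (-(κ ^ 2 + 1)) := by
  have hB : 0 < |a| + 1 := by positivity
  filter_upwards [hd.pos, h.eventually_le_const (show a < |a| + 1 by have := le_abs_self a; linarith),
    hd.t0.eventually_le_const (show (0:ℝ) < 1 / (|a| + 1) by positivity), eventually_gt_atTop 0] with T h1 h2 h3 h4
  have h2d : 0 < 2 * d T := by linarith
  have hp : 0 < (2 * d T) ^ (κ ^ 2) := Real.rpow_pos_of_pos h2d _
  have e1 : MR κ (d T) (2 * T) ≤ (|a| + 1) * T * ((2 * d T) ^ (κ ^ 2))⁻¹ := by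
    have : MR κ (d T) (2 * T) =
        ((2 * d T) ^ (κ ^ 2) * (1 / T * MR κ (d T) (2 * T))) * T * ((2 * d T) ^ (κ ^ 2))⁻¹ := by
      field_simp
    rw [this]
    gcongr
  have e2 : ((2 * d T) ^ (κ ^ 2))⁻¹ ≤ (d T ^ (κ ^ 2))⁻¹ := by
    gcongr
    linarith
  have e3 : |a| + 1 ≤ (d T)⁻¹ := by
    rw [le_inv_comm₀ hB h1, ← one_div]
    exact h3
  calc MR κ (d T) (2 * T) ≤ (|a| + 1) * T * ((2 * d T) ^ (κ ^ 2))⁻¹ := e1
    _ ≤ (d T)⁻¹ * T * (d T ^ (κ ^ 2))⁻¹ := by gcongr
    _ = T * d T ^ (-(κ ^ 2 + 1)) := by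
        rw [Real.rpow_neg h1.le, Real.rpow_add h1, Real.rpow_one, mul_inv]; ring

variable {c : ℝ → ℝ} {S K : ℝ}

theorem line_two (h : Sc c S K) {k : ℕ} (hk : 1 ≤ k) (hL : Line c k) {δ : ℝ} (hδ : 0 < δ) :
    Tendsto (fun T : ℝ => (2 * (δ * c T / Real.log T)) ^ ((k:ℝ) ^ 2) *
      (1 / T * MR k (δ * c T / Real.log T) (2 * T))) atTop (𝓝 (2 * H306R2.aF k)) := by
  have ht := big_top h.big
  have hK := h.Kpos
  obtain ⟨e, he⟩ : ∃ e : ℝ, e = δ / K ^ 2 := ⟨_, rfl⟩
  have he0 : 0 < e := by rw [he]; positivity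
  obtain ⟨C, hC⟩ := hL e he0
  have h2 : Tendsto (fun T : ℝ => 2 * T) atTop atTop := tendsto_id.const_mul_atTop two_pos
  have h4 : Tendsto (fun T : ℝ => 4 * T) atTop atTop := tendsto_id.const_mul_atTop four_pos
  refine near_two hk (d := fun T => δ * c T / Real.log T) (h.oδ δ) ?_ (θ := 1) zero_le_one one_lt_two
    (C := 4 * |C|) ?_
  · refine (ht.const_mul_atTop hδ).congr' ?_
    filter_upwards [Real.tendsto_log_atTop.eventually_gt_atTop 0] with T h1
    field_simp
  · filter_upwards [h4.eventually hC, h.dbl, h2.eventually h.dbl, Real.tendsto_log_atTop.eventually_ge_atTop 1,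
      eventually_gt_atTop 0] with T h1 h3 h5 h6 h7
    rw [MR_nat] at h1
    have e1 : δ * c T / Real.log T * Real.log T = δ * c T := by
      have : Real.log T ≠ 0 := by linarith
      field_simp
    rw [e1, one_mul]
    have e2 : (2:ℝ) * (2 * T) = 4 * T := by ring
    rw [e2] at h5
    have e3 : e * c (4 * T) ≤ δ * c T := by
      calc e * c (4 * T) ≤ e * (K * (K * c T)) := by
            gcongr
            exact h5.trans (by gcongr)
        _ = δ * c T := by rw [he]; field_simp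
    have e4 : 1 ≤ Real.log T ^ (k ^ 2) := one_le_pow₀ h6
    calc J k 0 (4 * T) ≤ C * (4 * T) * Real.exp (e * c (4 * T)) := h1
      _ ≤ |C| * (4 * T) * Real.exp (δ * c T) := by gcongr; exact le_abs_self C
      _ = 4 * |C| * (T * 1) * Real.exp (δ * c T) := by ring
      _ ≤ _ := by gcongr

end

end Pool.Agent.U575.JO
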